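import Mathlib
import Pool.Agent.N477.Dens

set_option autoImplicit false

open Filter Topology

namespace Pool.Agent.Results.MP_91b3c5_co.NoShiftThreshold

open Classical in
/-- the upper density `limsup_N |A ∩ {1,…,N}| / N` of a set of natural numbers -/
noncomputable def upperDensity (A : Set ℕ) : ℝ :=
  limsup (fun N : ℕ => (((Finset.Icc 1 N).filter (fun a => a ∈ A)).card : ℝ) / N) atTop

/-- `S_{m,ℓ}(B) = {m b₁ + ℓ b₂ : b₁, b₂ ∈ B, b₁ ≠ b₂}` -/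
def S (m ℓ : ℕ) (B : Set ℕ) : Set ℕ :=
  {x | ∃ b₁ ∈ B, ∃ b₂ ∈ B, b₁ ≠ b₂ ∧ x = m * b₁ + ℓ * b₂}

/-- For integers `ℓ > m ≥ 1`, every set of natural numbers of upper density greater than
`1 - m / (ℓ + m)^2` contains `S_{m,ℓ}(B)` for some infinite set `B` of positive integers. -/
theorem result (m ℓ : ℕ) (hm : 1 ≤ m) (hmℓ : m < ℓ) (A : Set ℕ)
    (hA : 1 - (m : ℝ) / (ℓ + m) ^ 2 < upperDensity A) :
    ∃ B : Set ℕ, B.Infinite ∧ (∀ b ∈ B, 1 ≤ b) ∧ S m ℓ B ⊆ A := by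
  classical
  obtain ⟨δ, hδ1, hδ2⟩ := exists_between hA
  have hfreq : ∃ᶠ N : ℕ in atTop, δ < (Pool.Agent.N477.cI A N : ℝ) / N := by
    have hcob : IsCoboundedUnder (· ≤ ·) atTop
        (fun N : ℕ => (((Finset.Icc 1 N).filter (fun a => a ∈ A)).card : ℝ) / N) := by
      apply IsBoundedUnder.isCoboundedUnder_flip
      exact isBoundedUnder_of ⟨0, fun N => by positivity⟩
    refine (frequently_lt_of_lt_limsup hcob hδ2).mono (fun N hN => ?_)
    exact hN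
  obtain ⟨B, s, hB, hpos, hs, h⟩ := Pool.Agent.N477.upper_case ℓ m (ℓ + m) hm hmℓ (by omega)
    dvd_rfl A δ
    (by
      have e : 1 - (m : ℝ) / ((ℓ + m) * ((ℓ + m : ℕ) : ℝ)) = 1 - m / (ℓ + m) ^ 2 := by
        push_cast
        rw [sq]
      rw [e]
      exact hδ1) hfreq
  obtain ⟨B', hB', hpos', h'⟩ := Pool.Agent.N477.absorb_shift ℓ m A B s hs hB hpos h
  refine ⟨B', hB', hpos', ?_⟩
  rintro x ⟨b₁, h1, b₂, h2, hne, rfl⟩
  exact h' b₁ h1 b₂ h2 hne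

end Pool.Agent.Results.MP_91b3c5_co.NoShiftThreshold
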