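import Mathlib
import Pool.Agent.N477.Dens

set_option autoImplicit false

open Filter Topology

namespace Pool.Agent.Results.MP_91b3c5_co.ShiftThreshold

open Classical in
/-- the upper density `limsup_N |A ∩ {1,…,N}| / N` of a set of natural numbers -/
noncomputable def upperDensity (A : Set ℕ) : ℝ :=
  limsup (fun N : ℕ => (((Finset.Icc 1 N).filter (fun a => a ∈ A)).card : ℝ) / N) atTop

/-- `S_{m,ℓ}(B) = {m b₁ + ℓ b₂ : b₁, b₂ ∈ B, b₁ ≠ b₂}` -/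
def S (m ℓ : ℕ) (B : Set ℕ) : Set ℕ :=
  {x | ∃ b₁ ∈ B, ∃ b₂ ∈ B, b₁ ≠ b₂ ∧ x = m * b₁ + ℓ * b₂}

/-- For integers `ℓ > m ≥ 1`, every set of natural numbers of upper density greater than
`ℓ / (ℓ + m)` contains `S_{m,ℓ}(B) + t` for some infinite set `B` of positive integers and some
positive integer `t`. -/
theorem result (m ℓ : ℕ) (hm : 1 ≤ m) (hmℓ : m < ℓ) (A : Set ℕ)
    (hA : (ℓ : ℝ) / (ℓ + m) < upperDensity A) :
    ∃ B : Set ℕ, B.Infinite ∧ (∀ b ∈ B, 1 ≤ b) ∧ ∃ t : ℕ, 1 ≤ t ∧ ∀ x ∈ S m ℓ B, x + t ∈ A := by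
  classical
  obtain ⟨δ, hδ1, hδ2⟩ := exists_between hA
  have hm' : (0 : ℝ) < m := by exact_mod_cast hm
  have hℓ' : (0 : ℝ) < ℓ := by exact_mod_cast (hm.trans hmℓ.le)
  have hfreq : ∃ᶠ N : ℕ in atTop, δ < (Pool.Agent.N477.cI A N : ℝ) / N := by
    have hcob : IsCoboundedUnder (· ≤ ·) atTop
        (fun N : ℕ => (((Finset.Icc 1 N).filter (fun a => a ∈ A)).card : ℝ) / N) := by
      apply IsBoundedUnder.isCoboundedUnder_flip
      exact isBoundedUnder_of ⟨0, fun N => by positivity⟩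
    refine (frequently_lt_of_lt_limsup hcob hδ2).mono (fun N hN => ?_)
    exact hN
  obtain ⟨B, s, hB, hpos, _, h⟩ := Pool.Agent.N477.upper_case ℓ m 1 hm hmℓ one_pos (one_dvd _) A δ
    (by
      have e : 1 - (m : ℝ) / ((ℓ + m) * ((1 : ℕ) : ℝ)) = ℓ / (ℓ + m) := by
        push_cast
        field_simp
        ring
      rw [e]
      exact hδ1) hfreq
  obtain ⟨B', t, hB', hpos', ht, h'⟩ := Pool.Agent.N477.pos_shift ℓ m hm A B s hB h
  refine ⟨B', hB', hpos', t, ht, ?_⟩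
  rintro x ⟨b₁, h1, b₂, h2, hne, rfl⟩
  exact h' b₁ h1 b₂ h2 hne

end Pool.Agent.Results.MP_91b3c5_co.ShiftThreshold
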